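import Pool.Agent.Y377.IL.StmC
import Pool.Agent.Y377.IL.StmA
import Pool.Agent.Y377.IL.Rc

/-!
Job IL-PF (helper814): homogeneous coordinates for families of punctured lines.  The pattern is
that of `RatFam.rc` in `Pool/Agent/Y377/IL/Rc.lean`.
-/

set_option autoImplicit false

namespace Pool.Agent.Y814.IL

open MvPolynomial Pool.Agent.Y377.EL Pool.Agent.Y377.IL

theorem t_PF : S_PF := by
  intro hLOG K _ _ N d Q hd hQ x l S t hl hQx hF ht hxt hαt
  classical
  obtain ⟨S0, M, i1, i2, φ, -, h2, h3, ⟨a, ha, hac⟩, h5⟩ := hF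
  have hM : CharZero M := charZero_of_injective_algebraMap (algebraMap ℂ M).injective
  let y : Fin (N + 1) → frac S0 := fun j => ⟨x j / x l, h2 _ (hxt j)⟩
  have hα0 : ∑ j, (Finsupp.single l d) j = d := by
    rw [Finset.sum_eq_single l]
    · simp
    · intro j _ hj
      simp [Finsupp.single_apply, hj.symm]
    · intro h
      exact absurd (Finset.mem_univ _) h
  have hprod0 : ∏ j, x j ^ (Finsupp.single l d) j = x l ^ d := by
    rw [Finset.prod_eq_single l]
    · simp
    · intro j _ hj
      simp [Finsupp.single_apply, hj.symm]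
    · intro h
      exact absurd (Finset.mem_univ _) h
  have huu0 : x l ^ d / aeval x Q ∈ frac S0 := by
    rw [← hprod0]
    exact h2 _ (hαt _ hα0).1
  let uu : frac S0 := ⟨x l ^ d / aeval x Q, huu0⟩
  have hyl : y l = 1 := Subtype.ext (div_self hl)
  -- values of forms over the fraction field
  have e4 : ∀ (e : ℕ) (G : MvPolynomial (Fin (N + 1)) ℂ), G.IsHomogeneous e →
      aeval x G = x l ^ e * aeval (fun j => x j / x l) G := by
    intro e G hG
    rw [← form_scale hG]
    congr 2
    funext j
    rw [mul_div_cancel₀ _ hl]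
  have e5 : ∀ G : MvPolynomial (Fin (N + 1)) ℂ,
      ((aeval y G : frac S0) : K) = aeval (fun j => x j / x l) G := by
    intro G
    have := MvPolynomial.comp_aeval_apply (f := y) (frac S0).val G
    exact this
  have hQu : aeval y Q * uu = 1 := by
    apply Subtype.ext
    have h6 : ((aeval y Q * uu : frac S0) : K) =
        ((aeval y Q : frac S0) : K) * (x l ^ d / aeval x Q) := rfl
    rw [h6, e5]
    have h7 := e4 d Q hQ
    have h8 : ((1 : frac S0) : K) = 1 := rfl
    rw [h8]
    have h9 : aeval (fun j => x j / x l) Q * (x l ^ d / aeval x Q) =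
        (x l ^ d * aeval (fun j => x j / x l) Q) / aeval x Q := by ring
    rw [h9, ← h7, div_self hQx]
  have hQw : aeval (fun j => φ (y j)) Q * φ uu = 1 := by
    have h6 : aeval (fun j => φ (y j)) Q = φ (aeval y Q) :=
      (MvPolynomial.comp_aeval_apply (f := y) φ Q).symm
    rw [h6, ← map_mul, hQu, map_one]
  have hmon : ∀ α : Fin (N + 1) →₀ ℕ, ∑ j, α j = d →
      (((∏ j, y j ^ α j) * uu : frac S0) : K) = (∏ j, x j ^ α j) / aeval x Q := by
    intro α hα
    have h6 : (((∏ j, y j ^ α j) * uu : frac S0) : K) =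
        ((∏ j, y j ^ α j : frac S0) : K) * (x l ^ d / aeval x Q) := rfl
    have h7 : ((∏ j, y j ^ α j : frac S0) : K) = ∏ j, (x j / x l) ^ α j := by
      have := map_prod (frac S0).val (fun j => y j ^ α j) Finset.univ
      exact this.trans (Finset.prod_congr rfl fun j _ => map_pow (frac S0).val (y j) (α j))
    have h8 : ∏ j, (x j / x l) ^ α j = (∏ j, x j ^ α j) / x l ^ d := by
      simp only [div_pow]
      rw [Finset.prod_div_distrib, Finset.prod_pow_eq_pow_sum, hα]
    rw [h6, h7, h8]
    have h9 : x l ^ d ≠ 0 := pow_ne_zero _ hl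
    field_simp
  obtain ⟨P, g, hg, hPg, hcQ⟩ := hLOG N d Q hd hQ M (fun j => φ (y j)) (φ uu) l
    (by rw [hyl, map_one]) hQw (by
      intro α hα
      obtain ⟨hb1, hb2⟩ := hαt α hα
      have hb3 := h3 _ hb1 hb2
      obtain ⟨p, k, hp⟩ := h5 ((∏ j, y j ^ α j) * uu) (by rw [hmon α hα]; exact hb3)
      refine ⟨p, k, ?_⟩
      rw [← hp, map_mul, map_prod]
      simp only [map_pow])
  have hPl : P l ≠ 0 := by
    intro h0
    have h6 := hPg l
    rw [h0, map_zero, hyl, map_one, mul_one] at h6
    exact hg h6.symm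
  refine ⟨M, i1, i2, P, ?_, hcQ, ?_⟩
  · rintro G ⟨e, hG⟩
    have e1 : algebraMap (Polynomial M) (RatFunc M) (aeval P G) = g ^ e * φ (aeval y G) := by
      have e2 : algebraMap (Polynomial M) (RatFunc M) (aeval P G) =
          aeval (fun j => algebraMap (Polynomial M) (RatFunc M) (P j)) G := by
        have := MvPolynomial.comp_aeval_apply (f := P)
          (IsScalarTower.toAlgHom ℂ (Polynomial M) (RatFunc M)) G
        exact this
      rw [e2]
      have e3 : (fun j => algebraMap (Polynomial M) (RatFunc M) (P j)) =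
          fun j => g * (fun j => φ (y j)) j := funext hPg
      rw [e3, form_scale hG, MvPolynomial.comp_aeval_apply (f := y) φ G]
    rw [← map_eq_zero_iff _ (RatFunc.algebraMap_injective M), e1, mul_eq_zero,
      or_iff_right (pow_ne_zero _ hg), map_eq_zero_iff φ φ.injective, e4 e G hG, mul_eq_zero,
      or_iff_right (pow_ne_zero _ hl), ← e5]
    exact Subtype.ext_iff
  · by_contra hno
    push Not at hno
    have hex : ∀ j, ∃ c : M, φ (y j) = algebraMap M (RatFunc M) c := by
      intro j
      obtain ⟨c, hc⟩ := prop_of_wronskian hPl (hno j l)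
      refine ⟨c, ?_⟩
      have e7 := hPg j
      have e9 := hPg l
      rw [hyl, map_one, mul_one] at e9
      rw [hc, map_mul, e9] at e7
      have e8 : algebraMap (Polynomial M) (RatFunc M) (Polynomial.C c) =
          algebraMap M (RatFunc M) c := rfl
      rw [e8, mul_comm] at e7
      exact (mul_left_cancel₀ hg e7).symm
    choose cc hcc using hex
    rcases ht _ ha with ⟨j, hj⟩ | ⟨α, hα, haα⟩
    · apply hac (cc j)
      have e6 : a = y j := Subtype.ext hj
      rw [e6]
      exact hcc j
    · have h6 : aeval (fun j => φ (y j)) Q = algebraMap M (RatFunc M) (aeval cc Q) := by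
        have h7 : (fun j => φ (y j)) = fun j => algebraMap M (RatFunc M) (cc j) := funext hcc
        rw [h7]
        have := MvPolynomial.comp_aeval_apply (f := cc)
          (IsScalarTower.toAlgHom ℂ M (RatFunc M)) Q
        exact this.symm
      have h7 : φ uu = algebraMap M (RatFunc M) (aeval cc Q)⁻¹ := by
        rw [h6] at hQw
        rw [map_inv₀]
        exact eq_inv_of_mul_eq_one_right hQw
      apply hac ((∏ j, cc j ^ α j) * (aeval cc Q)⁻¹)
      have e6 : a = (∏ j, y j ^ α j) * uu := Subtype.ext (by rw [hmon α hα]; exact haα)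
      rw [e6, map_mul, map_prod, map_mul, map_prod, h7]
      simp only [map_pow, hcc]

end Pool.Agent.Y814.IL
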